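import Pool.Agent.Helper54_OD.Meas

/-! Squad OD2 (helper46): Kolmogorov extension with the cylinder formula. -/

set_option autoImplicit false

open MeasureTheory ProbabilityTheory Set

namespace Pool.Agent.OD.RG.H46

open Pool.Agent.OD.H54

/-- The limit measure is the law of a stationary 1-dependent colouring (proof of `H54.meas`). -/
theorem mu_one {d q : ℕ} (hq : 1 ≤ q) (p : Finset (Fin d → ℤ) → ((Fin d → ℤ) → Fin q) → ℝ)
    (hp : IsFam d q p) : IsOneDep d q (mu hq p hp) := by
  classical
  have := mu_prob hq p hp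
  refine ⟨mu_prob hq p hp, ?_, ?_, ?_⟩
  · -- proper
    rw [ae_all_iff]
    intro u
    rw [ae_all_iff]
    intro v
    by_cases huv : LAdj u v
    · simp only [huv, true_implies]
      rw [ae_iff]
      have h1 : {ω : (Fin d → ℤ) → Fin q | ¬ ω u ≠ ω v} ⊆
          ⋃ c : Fin q, {ω | ∀ w ∈ ({u, v} : Finset (Fin d → ℤ)), ω w = (fun _ => c) w} := by
        intro ω hω
        have hω' : ω u = ω v := by simpa using hω
        rw [mem_iUnion]
        refine ⟨ω u, fun w hw => ?_⟩
        rw [Finset.mem_insert, Finset.mem_singleton] at hw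
        rcases hw with rfl | rfl
        · rfl
        · exact hω'.symm
      refine measure_mono_null h1 (measure_iUnion_null fun c => ?_)
      rw [mu_cyl, hp.proper {u, v} _ u v (by simp) (by simp) huv rfl, ENNReal.ofReal_zero]
    · simp [huv]
  · -- stationary
    intro a
    refine IsProjectiveLimit.unique (P := PL hq p) ?_ (mu_lim hq p hp)
    intro I
    rw [Measure.map_map (Finset.measurable_restrict I) (shift_meas a),
      Measure.ext_iff_singleton]
    intro z
    rw [Measure.map_apply ((Finset.measurable_restrict I).comp (shift_meas a))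
      (MeasurableSet.of_discrete), PL_singleton]
    set x : (Fin d → ℤ) → Fin q := fun v => ex hq I z (v - a) with hx
    have h1 : ((I.restrict : ((Fin d → ℤ) → Fin q) → (I → Fin q)) ∘
        (fun (x : (Fin d → ℤ) → Fin q) v => x (v + a))) ⁻¹' {z} =
        {ω | ∀ v ∈ I.image (fun v => v + a), ω v = x v} := by
      ext ω
      simp only [mem_preimage, mem_singleton_iff, mem_ofPred_eq, Function.comp_apply,
        Finset.mem_image, forall_exists_index, and_imp, forall_apply_eq_imp_iff₂]
      constructor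
      · intro h v hv
        rw [hx]
        simp only [add_sub_cancel_right]
        rw [ex_mem hq I z v hv, ← h]
        rfl
      · intro h
        funext v
        have := h v v.2
        rw [hx] at this
        simp only [add_sub_cancel_right] at this
        rw [ex_mem hq I z v v.2] at this
        exact this
    rw [h1, mu_cyl, hp.shift]
    congr 1
    apply hp.dep
    intro v _
    simp [hx]
  · -- independence
    intro A B hAB
    refine IndepFun.process_indepFun_process (X := fun (v : A) (ω : (Fin d → ℤ) → Fin q) => ω v)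
      (Y := fun (v : B) (ω : (Fin d → ℤ) → Fin q) => ω v)
      (fun v => measurable_pi_apply _) (fun v => measurable_pi_apply _) ?_
    intro I J
    have hmI : Measurable (fun (ω : (Fin d → ℤ) → Fin q) (i : I) => ω i) :=
      measurable_pi_lambda _ fun v => measurable_pi_apply _
    have hmJ : Measurable (fun (ω : (Fin d → ℤ) → Fin q) (i : J) => ω i) :=
      measurable_pi_lambda _ fun v => measurable_pi_apply _
    rw [indepFun_iff_map_prod_eq_prod_map_map hmI.aemeasurable hmJ.aemeasurable,
      Measure.ext_iff_singleton]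
    rintro ⟨y, z⟩
    rw [← Set.singleton_prod_singleton, Measure.prod_prod,
      Measure.map_apply (hmI.prodMk hmJ) (MeasurableSet.of_discrete),
      Measure.map_apply hmI (MeasurableSet.of_discrete),
      Measure.map_apply hmJ (MeasurableSet.of_discrete)]
    set LI : Finset (Fin d → ℤ) := I.image (fun v : A => (v : Fin d → ℤ)) with hLI
    set LJ : Finset (Fin d → ℤ) := J.image (fun v : B => (v : Fin d → ℤ)) with hLJ
    set x : (Fin d → ℤ) → Fin q := fun v => if h : ∃ hA : v ∈ A, (⟨v, hA⟩ : A) ∈ I then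
      y ⟨⟨v, h.1⟩, h.2⟩ else if h : ∃ hB : v ∈ B, (⟨v, hB⟩ : B) ∈ J then
      z ⟨⟨v, h.1⟩, h.2⟩ else ⟨0, hq⟩ with hx
    have hxI : ∀ i : I, x i = y i := by
      intro i
      have h : ∃ hA : ((i : A) : Fin d → ℤ) ∈ A, (⟨((i : A) : Fin d → ℤ), hA⟩ : A) ∈ I :=
        ⟨i.1.2, i.2⟩
      simp only [hx]
      rw [dif_pos h]
    have hxJ : ∀ i : J, x i = z i := by
      intro i
      have h : ∃ hB : ((i : B) : Fin d → ℤ) ∈ B, (⟨((i : B) : Fin d → ℤ), hB⟩ : B) ∈ J :=
        ⟨i.1.2, i.2⟩
      have h' : ¬ ∃ hA : ((i : B) : Fin d → ℤ) ∈ A, (⟨((i : B) : Fin d → ℤ), hA⟩ : A) ∈ I := by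
        rintro ⟨hA, -⟩
        exact (hAB _ hA _ i.1.2).1 rfl
      simp only [hx]
      rw [dif_neg h', dif_pos h]
    have e1 : (fun (ω : (Fin d → ℤ) → Fin q) (i : I) => ω i) ⁻¹' {y} =
        {ω | ∀ v ∈ LI, ω v = x v} := by
      ext ω
      simp only [mem_preimage, mem_singleton_iff, mem_ofPred_eq, hLI, Finset.mem_image,
        forall_exists_index, and_imp, forall_apply_eq_imp_iff₂]
      constructor
      · intro h v hv
        have := congrFun h ⟨v, hv⟩
        rw [hxI ⟨v, hv⟩]
        exact this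
      · intro h
        funext i
        rw [← hxI i]
        exact h i i.2
    have e2 : (fun (ω : (Fin d → ℤ) → Fin q) (i : J) => ω i) ⁻¹' {z} =
        {ω | ∀ v ∈ LJ, ω v = x v} := by
      ext ω
      simp only [mem_preimage, mem_singleton_iff, mem_ofPred_eq, hLJ, Finset.mem_image,
        forall_exists_index, and_imp, forall_apply_eq_imp_iff₂]
      constructor
      · intro h v hv
        have := congrFun h ⟨v, hv⟩
        rw [hxJ ⟨v, hv⟩]
        exact this
      · intro h
        funext i
        rw [← hxJ i]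
        exact h i i.2
    have e3 : (fun ω : (Fin d → ℤ) → Fin q => ((fun (i : I) => ω i), (fun (i : J) => ω i))) ⁻¹'
        ({y} ×ˢ {z}) = {ω | ∀ v ∈ LI ∪ LJ, ω v = x v} := by
      ext ω
      have f1 : ω ∈ (fun (ω : (Fin d → ℤ) → Fin q) (i : I) => ω i) ⁻¹' {y} ↔
        ω ∈ {ω | ∀ v ∈ LI, ω v = x v} := by rw [e1]
      have f2 : ω ∈ (fun (ω : (Fin d → ℤ) → Fin q) (i : J) => ω i) ⁻¹' {z} ↔
        ω ∈ {ω | ∀ v ∈ LJ, ω v = x v} := by rw [e2]
      rw [mem_preimage, mem_prod]
      simp only [mem_preimage, mem_ofPred_eq] at f1 f2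
      rw [f1, f2]
      simp only [mem_ofPred_eq, Finset.mem_union]
      constructor
      · rintro ⟨h1, h2⟩ v (hv | hv)
        · exact h1 v hv
        · exact h2 v hv
      · intro h
        exact ⟨fun v hv => h v (Or.inl hv), fun v hv => h v (Or.inr hv)⟩
    rw [e1, e2, e3, mu_cyl, mu_cyl, mu_cyl, hp.mul LI LJ x, ENNReal.ofReal_mul (hp.nonneg _ _)]
    intro u hu v hv
    obtain ⟨u', -, rfl⟩ := Finset.mem_image.1 hu
    obtain ⟨v', -, rfl⟩ := Finset.mem_image.1 hv
    exact hAB _ u'.2 _ v'.2

/-- MEAS with the cylinder formula -/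
theorem meas2 (d q : ℕ) (p : Finset (Fin d → ℤ) → ((Fin d → ℤ) → Fin q) → ℝ) (hq : 1 ≤ q)
    (hp : IsFam d q p) : ∃ μ, IsOneDep d q μ ∧
      ∀ (L : Finset (Fin d → ℤ)) (x : (Fin d → ℤ) → Fin q), μ.real {y | ∀ v ∈ L, y v = x v} =
        p L x := by
  refine ⟨mu hq p hp, mu_one hq p hp, ?_⟩
  intro L x
  rw [Measure.real, mu_cyl, ENNReal.toReal_ofReal (hp.nonneg L x)]

end Pool.Agent.OD.RG.H46
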