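import Pool.Agent.Helper46_OD.Stmts
import Pool.Agent.Helper46_OD.Meas2

/-! Squad OD2, row FIB (helper46): the law of a critical class in the hyperplane. -/

set_option autoImplicit false

open MeasureTheory ProbabilityTheory Set

namespace Pool.Agent.OD.RG.H46

variable {d q n : ℕ}

/-- the hyperplane -/
def io (i : Fin (d + 1)) (u : Fin d → ℤ) : Fin (d + 1) → ℤ := i.insertNth 0 u

theorem io_inj (i : Fin (d + 1)) : Function.Injective (io i) :=
  Fin.insertNth_right_injective (α := fun _ : Fin (d + 1) => ℤ) 0

theorem io_self (i : Fin (d + 1)) (u : Fin d → ℤ) : io i u i = 0 := by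
  unfold io
  rw [Fin.insertNth_apply_same]

theorem io_succ (i : Fin (d + 1)) (u : Fin d → ℤ) (j : Fin d) : io i u (i.succAbove j) = u j := by
  unfold io
  rw [Fin.insertNth_apply_succAbove]

theorem io_add (i : Fin (d + 1)) (u a : Fin d → ℤ) : io i (u + a) = io i u + io i a := by
  funext j
  refine Fin.succAboveCases i ?_ ?_ j
  · rw [Pi.add_apply, io_self, io_self, io_self, add_zero]
  · intro k
    rw [Pi.add_apply, io_succ, io_succ, io_succ, Pi.add_apply]

theorem rem_io (i : Fin (d + 1)) (u : Fin d → ℤ) : (fun j => io i u (i.succAbove j)) = u := by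
  funext j
  exact io_succ i u j

theorem io_adj (i : Fin (d + 1)) (u v : Fin d → ℤ) : LAdj (io i u) (io i v) ↔ LAdj u v := by
  unfold LAdj
  rw [Fin.sum_univ_succAbove _ i, io_self, io_self, sub_self, abs_zero, zero_add]
  have : ∀ j, |io i u (i.succAbove j) - io i v (i.succAbove j)| = |u j - v j| := by
    intro j
    rw [io_succ, io_succ]
  rw [Finset.sum_congr rfl fun j _ => this j]

/-- cylinders -/
def cy (F : Finset (Fin d → ℤ)) (x : (Fin d → ℤ) → Fin q) : Set ((Fin d → ℤ) → Fin q) :=
  {y | ∀ u ∈ F, y u = x u}

theorem cy_meas (F : Finset (Fin d → ℤ)) (x : (Fin d → ℤ) → Fin q) :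
    MeasurableSet (cy F x) := by
  have h : cy F x = ⋂ u ∈ F, (fun y : (Fin d → ℤ) → Fin q => y u) ⁻¹' {x u} := by
    ext y
    simp only [cy, mem_ofPred_eq, mem_iInter, mem_preimage, mem_singleton_iff]
  rw [h]
  exact Finset.measurableSet_biInter F fun u _ =>
    (measurable_pi_apply u) (MeasurableSet.of_discrete)

theorem cy_mul {μ : Measure ((Fin d → ℤ) → Fin q)} (hμ : IsOneDep d q μ)
    (A B : Finset (Fin d → ℤ)) (x : (Fin d → ℤ) → Fin q)
    (hAB : ∀ u ∈ A, ∀ v ∈ B, u ≠ v ∧ ¬ LAdj u v) :
    μ.real (cy (A ∪ B) x) = μ.real (cy A x) * μ.real (cy B x) := by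
  classical
  have h := hμ.indep (A : Set (Fin d → ℤ)) (B : Set (Fin d → ℤ)) (fun u hu v hv =>
    hAB u hu v hv)
  have h1 := h.measure_inter_preimage_eq_mul {fun v : (A : Set (Fin d → ℤ)) => x v}
    {fun v : (B : Set (Fin d → ℤ)) => x v} (measurableSet_singleton _)
    (measurableSet_singleton _)
  have e1 : (fun (y : (Fin d → ℤ) → Fin q) (v : (A : Set (Fin d → ℤ))) => y v) ⁻¹'
      {fun v : (A : Set (Fin d → ℤ)) => x v} = cy A x := by
    ext y
    simp only [mem_preimage, mem_singleton_iff, cy, mem_ofPred_eq]
    constructor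
    · intro h u hu
      exact congrFun h ⟨u, hu⟩
    · intro h
      funext u
      exact h u u.2
  have e2 : (fun (y : (Fin d → ℤ) → Fin q) (v : (B : Set (Fin d → ℤ))) => y v) ⁻¹'
      {fun v : (B : Set (Fin d → ℤ)) => x v} = cy B x := by
    ext y
    simp only [mem_preimage, mem_singleton_iff, cy, mem_ofPred_eq]
    constructor
    · intro h u hu
      exact congrFun h ⟨u, hu⟩
    · intro h
      funext u
      exact h u u.2
  have e3 : cy (A ∪ B) x = cy A x ∩ cy B x := by
    ext y
    simp only [cy, mem_ofPred_eq, mem_inter_iff, Finset.mem_union]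
    constructor
    · intro h
      exact ⟨fun u hu => h u (Or.inl hu), fun u hu => h u (Or.inr hu)⟩
    · rintro ⟨h, h'⟩ u (hu | hu)
      · exact h u hu
      · exact h' u hu
  rw [e1, e2] at h1
  rw [e3, Measure.real, h1, ENNReal.toReal_mul]
  rfl

/-- the configuration on the lattice -/
def co (i : Fin (d + 1)) (em : Fin n → Fin q) (x : (Fin d → ℤ) → Fin n)
    (w : Fin (d + 1) → ℤ) : Fin q := em (x fun j => w (i.succAbove j))

theorem co_io (i : Fin (d + 1)) (em : Fin n → Fin q) (x : (Fin d → ℤ) → Fin n)
    (u : Fin d → ℤ) : co i em x (io i u) = em (x u) := by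
  unfold co
  rw [rem_io]

theorem cy_io (i : Fin (d + 1)) (em : Fin n → Fin q) (L : Finset (Fin d → ℤ))
    (x : (Fin d → ℤ) → Fin n) [DecidableEq (Fin (d + 1) → ℤ)] :
    cy (L.image (io i)) (co i em x) = {y | ∀ u ∈ L, y (io i u) = em (x u)} := by
  ext y
  simp only [cy, mem_ofPred_eq, Finset.mem_image, forall_exists_index, and_imp,
    forall_apply_eq_imp_iff₂, co_io]

theorem fib (hB : CrbStatement) : FibStatement := by
  classical
  intro d q n μ i C em hem hC hn hμ hR hq
  have := hμ.prob
  let P : Finset (Fin d → ℤ) → ((Fin d → ℤ) → Fin n) → ℝ := fun L x =>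
    4 ^ L.card * μ.real (cy (L.image (io i)) (co i em x))
  have hP : IsFam d n P := by
    refine ⟨?_, ?_, ?_, ?_, ?_, ?_, ?_⟩
    · intro L x
      positivity
    · intro x
      change 4 ^ (∅ : Finset (Fin d → ℤ)).card * μ.real (cy (Finset.image (io i) ∅) _) = 1
      have h : cy (Finset.image (io i) ∅) (co i em x) = univ := by
        ext y
        simp [cy]
      rw [h, Finset.card_empty, pow_zero, one_mul, probReal_univ]
    · intro L x y h
      change 4 ^ L.card * μ.real _ = 4 ^ L.card * μ.real _
      rw [cy_io, cy_io]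
      have h1 : {y : (Fin (d + 1) → ℤ) → Fin q | ∀ u ∈ L, y (io i u) = em (x u)} =
          {z | ∀ u ∈ L, z (io i u) = em (y u)} := by
        ext z
        simp only [mem_ofPred_eq]
        constructor
        · intro h2 u hu
          rw [h2 u hu, h u hu]
        · intro h2 u hu
          rw [h2 u hu, h u hu]
      rw [h1]
    · intro L x v hv
      change ∑ b, 4 ^ (insert v L).card * μ.real (cy ((insert v L).image (io i))
        (co i em (Function.update x v b))) = 4 ^ L.card * μ.real (cy (L.image (io i)) (co i em x))
      have h1 : ∀ b, cy ((insert v L).image (io i)) (co i em (Function.update x v b)) =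
          {y | (∀ u ∈ L.image (io i), y u = co i em x u) ∧ y (io i v) = em b} := by
        intro b
        rw [cy_io]
        ext y
        simp only [mem_ofPred_eq, Finset.mem_image, forall_exists_index, and_imp,
          forall_apply_eq_imp_iff₂, co_io, Finset.mem_insert, forall_eq_or_imp,
          Function.update_self]
        constructor
        · rintro ⟨h2, h3⟩
          refine ⟨fun u hu => ?_, h2⟩
          have h4 := h3 u hu
          have h5 : u ≠ v := fun h5 => hv (h5 ▸ hu)
          rwa [Function.update_of_ne h5] at h4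
        · rintro ⟨h2, h3⟩
          refine ⟨h3, fun u hu => ?_⟩
          have h5 : u ≠ v := fun h5 => hv (h5 ▸ hu)
          rw [Function.update_of_ne h5]
          exact h2 u hu
      have h2 := hB (d + 1) q μ i C hμ hR hq (L.image (io i)) (io i v) (co i em x)
        (fun h3 => by
          obtain ⟨u, hu, hu'⟩ := Finset.mem_image.1 h3
          exact hv (io_inj i hu' ▸ hu))
        (fun u hu => by
          obtain ⟨u', -, rfl⟩ := Finset.mem_image.1 hu
          rw [io_self, io_self])
      have h3 : {y : (Fin (d + 1) → ℤ) → Fin q | (∀ u ∈ L.image (io i), y u = co i em x u) ∧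
          y (io i v) ∈ C} =
          ⋃ b : Fin n, {y | (∀ u ∈ L.image (io i), y u = co i em x u) ∧
            y (io i v) = em b} := by
        ext y
        simp only [mem_ofPred_eq, mem_iUnion, hC]
        constructor
        · rintro ⟨h4, b, hb⟩
          exact ⟨b, h4, hb.symm⟩
        · rintro ⟨b, h4, hb⟩
          exact ⟨h4, b, hb.symm⟩
      have h4 : μ.real (⋃ b : Fin n, {y : (Fin (d + 1) → ℤ) → Fin q |
            (∀ u ∈ L.image (io i), y u = co i em x u) ∧
            y (io i v) = em b}) = ∑ b : Fin n, μ.real
            {y : (Fin (d + 1) → ℤ) → Fin q |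
              (∀ u ∈ L.image (io i), y u = co i em x u) ∧ y (io i v) = em b} := by
        rw [measureReal_iUnion_fintype]
        · intro a b hab
          rw [Function.onFun, Set.disjoint_left]
          rintro y ⟨-, hy⟩ ⟨-, hy'⟩
          exact hab (hem (hy.symm.trans hy'))
        · intro b
          have h5 : {y | (∀ u ∈ L.image (io i), y u = co i em x u) ∧ y (io i v) = em b} =
              cy (L.image (io i)) (co i em x) ∩
                (fun y : (Fin (d + 1) → ℤ) → Fin q => y (io i v)) ⁻¹' {em b} := by
            ext y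
            rfl
          rw [h5]
          exact (cy_meas _ _).inter ((measurable_pi_apply _) (MeasurableSet.of_discrete))
      rw [← Finset.mul_sum, Finset.sum_congr rfl fun b _ => by rw [h1 b], ← h4, ← h3, h2,
        Finset.card_insert_of_notMem hv, pow_succ]
      change 4 ^ L.card * 4 * (1 / 4 * μ.real (cy (L.image (io i)) (co i em x))) = _
      ring
    · intro L x u v hu hv huv hx
      change 4 ^ L.card * μ.real (cy (L.image (io i)) (co i em x)) = 0
      have h1 : μ (cy (L.image (io i)) (co i em x)) = 0 := by
        have h2 := hμ.proper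
        rw [ae_iff] at h2
        refine measure_mono_null ?_ h2
        intro y hy h3
        rw [cy_io] at hy
        apply h3 (io i u) (io i v) ((io_adj i u v).2 huv)
        rw [hy u hu, hy v hv, hx]
      rw [Measure.real, h1, ENNReal.toReal_zero, mul_zero]
    · intro L x a
      change 4 ^ (L.image fun v => v + a).card * μ.real
        (cy ((L.image fun v => v + a).image (io i)) (co i em x)) =
        4 ^ L.card * μ.real (cy (L.image (io i)) (co i em fun v => x (v + a)))
      rw [Finset.card_image_of_injective _ (add_left_injective a)]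
      have h1 := hμ.stat (io i a)
      have h2 : μ (cy ((L.image fun v => v + a).image (io i)) (co i em x)) =
          μ (cy (L.image (io i)) (co i em fun v => x (v + a))) := by
        have h3 : Measurable (fun (y : (Fin (d + 1) → ℤ) → Fin q) v => y (v + io i a)) :=
          measurable_pi_lambda _ fun v => measurable_pi_apply _
        conv_rhs => rw [← h1]
        rw [Measure.map_apply h3 (cy_meas _ _)]
        congr 1
        rw [cy_io, cy_io]
        ext y
        simp only [mem_ofPred_eq, Finset.mem_image, forall_exists_index, and_imp,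
          forall_apply_eq_imp_iff₂, mem_preimage, io_add]
      rw [Measure.real, Measure.real, h2]
    · intro A B x hAB
      change 4 ^ (A ∪ B).card * μ.real (cy ((A ∪ B).image (io i)) (co i em x)) =
        4 ^ A.card * μ.real (cy (A.image (io i)) (co i em x)) *
        (4 ^ B.card * μ.real (cy (B.image (io i)) (co i em x)))
      have h1 : Disjoint A B := by
        rw [Finset.disjoint_left]
        intro u hu hu'
        exact (hAB u hu u hu').1 rfl
      rw [Finset.card_union_of_disjoint h1, Finset.image_union, cy_mul hμ, pow_add]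
      · ring
      · intro u hu v hv
        obtain ⟨u', hu', rfl⟩ := Finset.mem_image.1 hu
        obtain ⟨v', hv', rfl⟩ := Finset.mem_image.1 hv
        refine ⟨fun h => (hAB u' hu' v' hv').1 (io_inj i h), fun h => (hAB u' hu' v' hv').2 ?_⟩
        exact (io_adj i u' v').1 h
  obtain ⟨ν, h1, h2⟩ := meas2 d n P hn hP
  refine ⟨ν, h1, ?_⟩
  intro L x
  rw [h2]
  change 4 ^ L.card * μ.real (cy (L.image (io i)) (co i em x)) = _
  rw [cy_io]
  rfl

end Pool.Agent.OD.RG.H46
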