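import Pool.Agent.Helper42_OD.Defs

/-!
# Squad OD2 (MP_ee7213_pr): rigidity of critical colour classes (note 3316 of helper52)

Statements of the modules.  `IsOneDep`, `IsFam`: `Pool/Agent/Helper42_OD/Defs.lean`.
Useful: `Pool/Agent/Helper54_OD/Meas.lean` (`mu`, `mu_cyl`, `meas`), `Pool/Agent/Helper54_OD/Low.lean`.
-/

set_option autoImplicit false

open MeasureTheory ProbabilityTheory

namespace Pool.Agent.OD.RG

/-- almost surely no two neighbours on a line of direction `i` have both a colour in `C` -/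
def RowInd {d q : ℕ} (μ : Measure ((Fin d → ℤ) → Fin q)) (i : Fin d) (C : Finset (Fin q)) :
    Prop :=
  ∀ᵐ x ∂μ, ∀ u : Fin d → ℤ, ¬ (x u ∈ C ∧ x (u + Pi.single i 1) ∈ C)

/-- `r` is a colour map with four values which is proper on the lines of direction `i` -/
def Ref4 {d q : ℕ} (μ : Measure ((Fin d → ℤ) → Fin q)) (i : Fin d) (r : Fin q → Fin 4) : Prop :=
  ∀ᵐ x ∂μ, ∀ u : Fin d → ℤ, r (x u) ≠ r (x (u + Pi.single i 1))

/-- CRA: the density of a class which is independent on the lines of direction `i` is at most `1/4`.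

Proof.  `p = P(x_0 ∈ C)`, `z n = P(x_(k e_i) ∉ C for k < n)`: `z 0 = 1`, `z 1 = 1 - p`,
`z (n + 2) = z (n + 1) - P(x_(k e_i) ∉ C for k < n + 1, x_((n+1) e_i) ∈ C)
= z (n + 1) - P(x_(k e_i) ∉ C for k < n, x_((n+1) e_i) ∈ C) = z (n + 1) - p z n`
(`x_((n+1) e_i) ∈ C` forces `x_(n e_i) ∉ C`; then 1-dependence and stationarity).  All `z n ≥ 0`, so `p ≤ 1/4`:
`z n > 0` by `z (n + 2) ≥ 0` etc., the ratios `r n = z (n + 1) / z n` satisfy `r (n + 1) = 1 - p / r n ≤ r n - (4 p - 1)/..`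
(`1 - p / r ≤ r - (2 √p - 1)` by AM-GM, so `r n` would tend to minus infinity if `p > 1/4`). -/
def CraStatement : Prop :=
  ∀ (d q : ℕ) (μ : Measure ((Fin d → ℤ) → Fin q)) (i : Fin d) (C : Finset (Fin q)),
    IsOneDep d q μ → RowInd μ i C → μ.real {y | y 0 ∈ C} ≤ 1 / 4

/-- CRB: a class of density `1/4` which is independent on the lines of direction `i`, at a site `v`, is
independent of the colours of the other sites of the hyperplane through `v`.

Proof.  `z n = (n + 2) / 2^(n + 1)`.  `E = {y | ∀ u ∈ F, y u = x u}` or its complement.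
`0 ≤ P(E, y (v + k e_i) ∉ C for |k| ≤ n) = P(E, y (v + k e_i) ∉ C for 1 ≤ |k| ≤ n) -
P(E, y v ∈ C, y (v + k e_i) ∉ C for 1 ≤ |k| ≤ n) = P(E) z_n ^ 2 - P(E, y v ∈ C) z_(n-1) ^ 2`
(`y v ∈ C` forces `y (v ± e_i) ∉ C`; `F ∪ {v}` and the sites `v + k e_i`, `|k| ≥ 2`, are at distance at least 2).
So `P(E, y v ∈ C) ≤ P(E) / 4` (`n → ∞`), for `E` and for its complement; the sum is an equality. -/
def CrbStatement : Prop :=
  ∀ (d q : ℕ) (μ : Measure ((Fin d → ℤ) → Fin q)) (i : Fin d) (C : Finset (Fin q)),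
    IsOneDep d q μ → RowInd μ i C → μ.real {y | y 0 ∈ C} = 1 / 4 →
    ∀ (F : Finset (Fin d → ℤ)) (v : Fin d → ℤ) (x : (Fin d → ℤ) → Fin q), v ∉ F →
      (∀ u ∈ F, u i = v i) →
      μ.real {y | (∀ u ∈ F, y u = x u) ∧ y v ∈ C} = 1 / 4 * μ.real {y | ∀ u ∈ F, y u = x u}

/-- FIB: the law of the class in the hyperplane.

Proof.  `p L x = 4^|L| P(y (ι u) = em (x u) for u ∈ L)`, `ι u = i.insertNth 0 u`, is a consistent family: `sum`
by CRB; then MEAS with the cylinder formula (`H54.mu_cyl`). -/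
def FibStatement : Prop :=
  ∀ (d q n : ℕ) (μ : Measure ((Fin (d + 1) → ℤ) → Fin q)) (i : Fin (d + 1)) (C : Finset (Fin q))
    (em : Fin n → Fin q), Function.Injective em → (∀ c, c ∈ C ↔ ∃ a, em a = c) → 1 ≤ n →
    IsOneDep (d + 1) q μ → RowInd μ i C → μ.real {y | y 0 ∈ C} = 1 / 4 →
    ∃ ν : Measure ((Fin d → ℤ) → Fin n), IsOneDep d n ν ∧
      ∀ (L : Finset (Fin d → ℤ)) (x : (Fin d → ℤ) → Fin n), ν.real {y | ∀ u ∈ L, y u = x u} =
        4 ^ L.card * μ.real {y | ∀ u ∈ L, y (i.insertNth 0 u) = em (x u)}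

/-- HLF: the 4-colouring of Holroyd and Liggett.

Proof.  `B [] = 1`, `B w = ∑_i B (w without the i-th letter)` for proper `w`, `0` otherwise;
`∑_a B (x a y) = 2 * choose (m + n + 2) (m + 1) * B x * B y`, `m = |x|`, `n = |y|`;
`P w = B w / (2^n (n + 1)!)`, `∑_a P (x a y) = P x P y`. -/
def HlfStatement : Prop := ∃ μ, IsOneDep 1 4 μ

/-- PRD: the product colouring with lines in direction `i`. -/
def PrdStatement : Prop :=
  ∀ (d n m : ℕ) (μ : Measure ((Fin 1 → ℤ) → Fin m)) (ν : Measure ((Fin d → ℤ) → Fin n))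
    (i : Fin (d + 1)), IsOneDep 1 m μ → IsOneDep d n ν →
    ∃ (κ : Measure ((Fin (d + 1) → ℤ) → Fin (m * n))), IsOneDep (d + 1) (m * n) κ ∧
      (∀ᵐ x ∂κ, ∀ u : Fin (d + 1) → ℤ,
        (finProdFinEquiv.symm (x u)).1 ≠ (finProdFinEquiv.symm (x (u + Pi.single i 1))).1) ∧
      ∀ (j : Fin d) (r : Fin n → Fin 4), Ref4 ν j r →
        ∀ᵐ x ∂κ, ∀ u : Fin (d + 1) → ℤ, r (finProdFinEquiv.symm (x u)).2 ≠
          r (finProdFinEquiv.symm (x (u + Pi.single (i.succAbove j) 1))).2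

end Pool.Agent.OD.RG
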